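import Mathlib

/-!
# Joins with a single vertex of mobile general position number two

If `G` is a finite graph containing a triangle, then `mob (G ∨ K₁) ≥ 3`.
Hence no graph with clique number at least `3` has `mob (G ∨ K₁) = 2`.
-/

namespace Pool.Agent.Results.MP_73e407_co.TriangleJoin

open SimpleGraph

/-- Three vertices lie on a common shortest path of `G`: there is a walk `p` whose length is the
distance of its ends and whose support contains the three vertices. -/
def OnCommonGeodesic {V : Type*} (G : SimpleGraph V) (a b c : V) : Prop :=
  ∃ (u v : V) (p : G.Walk u v), p.length = G.dist u v ∧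
    a ∈ p.support ∧ b ∈ p.support ∧ c ∈ p.support

/-- `S` is a general position set of `G`: no three distinct vertices of `S` lie on a common
shortest path. -/
def GenPos {V : Type*} (G : SimpleGraph V) (S : Finset V) : Prop :=
  ∀ a ∈ S, ∀ b ∈ S, ∀ c ∈ S, a ≠ b → b ≠ c → a ≠ c → ¬ OnCommonGeodesic G a b c

/-- A legal move: one robot moves from its vertex `u` to an adjacent unoccupied vertex `v`, and
the new set of occupied vertices is a general position set. -/
def LegalMove {V : Type*} [DecidableEq V] (G : SimpleGraph V) (S T : Finset V) : Prop :=
  ∃ u ∈ S, ∃ v, v ∉ S ∧ G.Adj u v ∧ T = insert v (S.erase u) ∧ GenPos G T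

/-- `S` is a mobile general position set of `G`: it is a general position set and there is a
finite sequence of legal moves starting from `S` such that every vertex is occupied at some
moment. -/
def IsMobile {V : Type*} [DecidableEq V] (G : SimpleGraph V) (S : Finset V) : Prop :=
  GenPos G S ∧ ∃ l : List (Finset V), List.IsChain (LegalMove G) (S :: l) ∧
    ∀ v, ∃ T ∈ S :: l, v ∈ T

/-- The mobile general position number: the largest size of a mobile general position set. -/
noncomputable def mob {V : Type*} [DecidableEq V] (G : SimpleGraph V) : ℕ :=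
  sSup {k | ∃ S : Finset V, S.card = k ∧ IsMobile G S}

/-- The join `G ∨ K₁`: one new vertex `none`, adjacent to every vertex of `G`. -/
def joinK1 {V : Type*} (G : SimpleGraph V) : SimpleGraph (Option V) where
  Adj x y := match x, y with
    | none, none => False
    | none, some _ => True
    | some _, none => True
    | some a, some b => G.Adj a b
  symm := ⟨by
    intro x y h
    cases x <;> cases y <;> simp_all [G.adj_comm]⟩
  loopless := ⟨by
    intro x
    cases x <;> simp⟩

variable {V : Type*} (G : SimpleGraph V)

lemma adj_none_some (a : V) : (joinK1 G).Adj none (some a) := trivial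
lemma adj_some_none (a : V) : (joinK1 G).Adj (some a) none := trivial
lemma adj_some_some (a b : V) : (joinK1 G).Adj (some a) (some b) ↔ G.Adj a b := Iff.rfl

lemma dist_le_two (x y : Option V) : (joinK1 G).dist x y ≤ 2 := by
  cases x with
  | none =>
    cases y with
    | none => simp
    | some b => exact le_trans (dist_le (Walk.cons (adj_none_some G b) Walk.nil)) (by simp)
  | some a =>
    cases y with
    | none => exact le_trans (dist_le (Walk.cons (adj_some_none G a) Walk.nil)) (by simp)
    | some b =>
      exact le_trans (dist_le (Walk.cons (adj_some_none G a)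
        (Walk.cons (adj_none_some G b) Walk.nil))) (by simp)

/-- In a graph of diameter at most two, a triple with `p ~ q` and `w` adjacent to both or to
none of `p, q` is in general position. -/
lemma genPos_triple {W : Type*} [DecidableEq W] (H : SimpleGraph W)
    (hd : ∀ x y, H.dist x y ≤ 2) {w p q : W} (hpq : H.Adj p q)
    (hwp : w ≠ p) (hwq : w ≠ q) (hw : H.Adj w p ↔ H.Adj w q) :
    GenPos H {w, p, q} := by
  intro a ha b hb c hc hab hbc hac hgeo
  obtain ⟨u, v, r, hlen, har, hbr, hcr⟩ := hgeo
  have hpq' : p ≠ q := hpq.ne
  have hmem : w ∈ r.support ∧ p ∈ r.support ∧ q ∈ r.support := by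
    simp only [Finset.mem_insert, Finset.mem_singleton] at ha hb hc
    rcases ha with rfl | rfl | rfl <;> rcases hb with rfl | rfl | rfl <;>
      rcases hc with rfl | rfl | rfl <;> simp_all
  obtain ⟨hwr, hpr, hqr⟩ := hmem
  have hle : r.length ≤ 2 := hlen ▸ hd u v
  match r, hlen, hwr, hpr, hqr, hle with
  | Walk.nil, _, hwr, hpr, hqr, _ =>
    simp only [Walk.support_nil, List.mem_singleton] at hwr hpr
    exact hwp (hwr.trans hpr.symm)
  | Walk.cons h1 Walk.nil, _, hwr, hpr, hqr, _ =>
    simp only [Walk.support_cons, Walk.support_nil, List.mem_cons, List.not_mem_nil,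
      or_false] at hwr hpr hqr
    rcases hwr with e1 | e1 <;> rcases hpr with e2 | e2 <;> rcases hqr with e3 | e3 <;>
      simp_all
  | Walk.cons (v := m) h1 (Walk.cons h2 Walk.nil), hlen, hwr, hpr, hqr, _ =>
    simp only [Walk.support_cons, Walk.support_nil, List.mem_cons, List.not_mem_nil,
      or_false] at hwr hpr hqr
    have h3 : ¬ H.Adj u v := by
      intro h
      have := dist_le (Walk.cons h Walk.nil)
      rw [← hlen] at this
      simp at this
    have h1' := h1.symm
    have h2' := h2.symm
    have h3' : ¬ H.Adj v u := fun h => h3 h.symm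
    rcases hwr with e1 | e1 | e1 <;> rcases hpr with e2 | e2 | e2 <;>
      rcases hqr with e3 | e3 | e3 <;> simp_all
  | Walk.cons h1 (Walk.cons h2 (Walk.cons h3 r')), _, _, _, _, hle =>
    simp at hle

/-- A closed tour from `S` back to `S` that visits all vertices of `A`. -/
def Tour {W : Type*} [DecidableEq W] (H : SimpleGraph W) (S : Finset W) (A : Set W) : Prop :=
  ∃ l : List (Finset W), List.IsChain (LegalMove H) (S :: l) ∧
    (S :: l).getLast (List.cons_ne_nil _ _) = S ∧ ∀ v ∈ A, ∃ T ∈ S :: l, v ∈ T

lemma Tour.union {W : Type*} [DecidableEq W] {H : SimpleGraph W} {S : Finset W} {A B : Set W}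
    (hA : Tour H S A) (hB : Tour H S B) : Tour H S (A ∪ B) := by
  obtain ⟨l, hl, hlast, hv⟩ := hA
  obtain ⟨l', hl', hlast', hv'⟩ := hB
  refine ⟨l ++ l', ?_, ?_, ?_⟩
  · rw [← List.cons_append, List.isChain_append]
    refine ⟨hl, (List.isChain_cons.mp hl').2, ?_⟩
    intro x hx y hy
    rw [List.getLast?_eq_getLast_of_ne_nil (List.cons_ne_nil _ _)] at hx
    rw [hlast] at hx
    simp only [Option.mem_def, Option.some.injEq] at hx
    subst hx
    exact (List.isChain_cons.mp hl').1 y hy
  · cases l' with
    | nil => simpa using hlast
    | cons t l'' => 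
      rw [← hlast']
      simp [List.getLast_cons]
  · intro v hvAB
    rcases hvAB with h | h
    · obtain ⟨T, hT, hvT⟩ := hv v h
      exact ⟨T, by rw [← List.cons_append]; exact List.mem_append_left _ hT, hvT⟩
    · obtain ⟨T, hT, hvT⟩ := hv' v h
      rcases List.mem_cons.mp hT with e | e
      · exact ⟨T, by rw [e]; exact List.mem_cons_self, hvT⟩
      · exact ⟨T, List.mem_cons_of_mem _ (List.mem_append_right _ e), hvT⟩

lemma legal_triple {W : Type*} [DecidableEq W] (H : SimpleGraph W)
    (hd : ∀ x y, H.dist x y ≤ 2) {u v p q : W} {S T : Finset W} (hS : S = {u, p, q})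
    (hT : T = {v, p, q}) (hup : u ≠ p) (huq : u ≠ q) (hvp : v ≠ p) (hvq : v ≠ q)
    (huv : H.Adj u v) (hpq : H.Adj p q) (hv : H.Adj v p ↔ H.Adj v q) :
    LegalMove H S T := by
  subst hS hT
  refine ⟨u, by simp, v, ?_, huv, ?_, genPos_triple H hd hpq hvp hvq hv⟩
  · simp [huv.ne', hvp, hvq]
  · congr 1
    ext x
    simp only [Finset.mem_insert, Finset.mem_singleton, Finset.mem_erase]
    constructor
    · rintro (rfl | rfl)
      · exact ⟨hup.symm, Or.inr (Or.inl rfl)⟩
      · exact ⟨huq.symm, Or.inr (Or.inr rfl)⟩
    · rintro ⟨hx, rfl | rfl | rfl⟩
      · exact absurd rfl hx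
      · exact Or.inl rfl
      · exact Or.inr rfl

lemma mobile_of_triangle [DecidableEq V] [Fintype V] {a b c : V} (hab : G.Adj a b)
    (hbc : G.Adj b c) (hac : G.Adj a c) :
    IsMobile (joinK1 G) {none, some a, some b} := by
  classical
  set H := joinK1 G with hH
  have hd : ∀ x y, H.dist x y ≤ 2 := dist_le_two G
  have hA : ∀ {x y : V}, G.Adj x y → H.Adj (some x) (some y) := fun h => h
  have hn : ∀ x : V, H.Adj none (some x) := fun x => adj_none_some G x
  have hn' : ∀ x : V, H.Adj (some x) none := fun x => adj_some_none G x
  have nab := hab.ne
  have nbc := hbc.ne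
  have nac := hac.ne
  set S : Finset (Option V) := {none, some a, some b} with hS
  -- moves between the three base positions
  have m1 : LegalMove H S {none, some a, some c} :=
    legal_triple H hd (u := some b) (v := some c) (p := none) (q := some a)
      (by rw [hS]; ext x; simp; tauto) (by ext x; simp; tauto)
      (by simp) (by simpa using nab.symm) (by simp) (by simpa using nac.symm)
      (hA hbc) (hn a) (by simp [hn' c, hA hac.symm])
  have m1' : LegalMove H {none, some a, some c} S :=
    legal_triple H hd (u := some c) (v := some b) (p := none) (q := some a)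
      (by ext x; simp; tauto) (by rw [hS]; ext x; simp; tauto)
      (by simp) (by simpa using nac.symm) (by simp) (by simpa using nab.symm)
      (hA hbc.symm) (hn a) (by simp [hn' b, hA hab.symm])
  have m2 : LegalMove H S {none, some b, some c} :=
    legal_triple H hd (u := some a) (v := some c) (p := none) (q := some b)
      (by rw [hS]; ext x; simp; tauto) (by ext x; simp; tauto)
      (by simp) (by simpa using nab) (by simp) (by simpa using nbc.symm)
      (hA hac) (hn b) (by simp [hn' c, hA hbc.symm])
  have m2' : LegalMove H {none, some b, some c} S :=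
    legal_triple H hd (u := some c) (v := some a) (p := none) (q := some b)
      (by ext x; simp; tauto) (by rw [hS]; ext x; simp; tauto)
      (by simp) (by simpa using nbc.symm) (by simp) (by simpa using nab)
      (hA hac.symm) (hn b) (by simp [hn' a, hA hab])
  have mout : ∀ {d p q : V}, d ≠ p → d ≠ q → G.Adj p q → (G.Adj d p ↔ G.Adj d q) →
      LegalMove H {none, some p, some q} {some d, some p, some q} := by
    intro d p q hdp hdq hpq hiff
    exact legal_triple H hd (u := none) (v := some d) (p := some p) (q := some q) rfl rfl
      (by simp) (by simp) (by simpa using hdp) (by simpa using hdq) (hn d) (hA hpq) hiff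
  have min : ∀ {d p q : V}, d ≠ p → d ≠ q → G.Adj p q →
      LegalMove H {some d, some p, some q} {none, some p, some q} := by
    intro d p q hdp hdq hpq
    exact legal_triple H hd (u := some d) (v := none) (p := some p) (q := some q) rfl rfl
      (by simpa using hdp) (by simpa using hdq) (by simp) (by simp) (hn' d) (hA hpq)
      (by simp [hn])
  have htour : ∀ x : Option V, Tour H S {x} := by
    intro x
    by_cases hxS : x ∈ S
    · exact ⟨[], by simp, by simp, by
        intro v hv
        rw [Set.mem_singleton_iff.mp hv]
        exact ⟨S, by simp, hxS⟩⟩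
    · cases x with
      | none => simp [hS] at hxS
      | some d =>
        by_cases hdc : d = c
        · subst hdc
          refine ⟨[{none, some a, some d}, S], ?_, by simp, ?_⟩
          · simp only [List.isChain_cons_cons, List.isChain_singleton, and_true]
            exact ⟨m1, m1'⟩
          · intro v hv
            rw [Set.mem_singleton_iff.mp hv]
            exact ⟨{none, some a, some d}, by simp, by simp⟩
        · have hda : d ≠ a := by rintro rfl; simp [hS] at hxS
          have hdb : d ≠ b := by rintro rfl; simp [hS] at hxS
          by_cases h1 : G.Adj d a ↔ G.Adj d b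
          · refine ⟨[{some d, some a, some b}, S], ?_, by simp, ?_⟩
            · simp only [List.isChain_cons_cons, List.isChain_singleton, and_true]
              exact ⟨mout hda hdb hab h1, min hda hdb hab⟩
            · intro v hv
              rw [Set.mem_singleton_iff.mp hv]
              exact ⟨{some d, some a, some b}, by simp, by simp⟩
          · by_cases h2 : G.Adj d a ↔ G.Adj d c
            · refine ⟨[{none, some a, some c}, {some d, some a, some c},
                {none, some a, some c}, S], ?_, by simp, ?_⟩
              · simp only [List.isChain_cons_cons, List.isChain_singleton, and_true]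
                exact ⟨m1, mout hda hdc hac h2, min hda hdc hac, m1'⟩
              · intro v hv
                rw [Set.mem_singleton_iff.mp hv]
                exact ⟨{some d, some a, some c}, by simp, by simp⟩
            · have h3 : G.Adj d b ↔ G.Adj d c := by tauto
              refine ⟨[{none, some b, some c}, {some d, some b, some c},
                {none, some b, some c}, S], ?_, by simp, ?_⟩
              · simp only [List.isChain_cons_cons, List.isChain_singleton, and_true]
                exact ⟨m2, mout hdb hdc hbc h3, min hdb hdc hbc, m2'⟩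
              · intro v hv
                rw [Set.mem_singleton_iff.mp hv]
                exact ⟨{some d, some b, some c}, by simp, by simp⟩
  have hall : ∀ A : Finset (Option V), Tour H S (A : Set (Option V)) := by
    intro A
    induction A using Finset.induction_on with
    | empty => exact ⟨[], by simp, by simp, by simp⟩
    | insert x A _ ih =>
      have := (htour x).union ih
      rwa [Finset.coe_insert, Set.insert_eq]
  obtain ⟨l, hl, _, hv⟩ := hall Finset.univ
  refine ⟨?_, l, hl, fun v => hv v (by simp)⟩
  exact genPos_triple H hd (hA hab) (by simp) (by simp) (by simp [hn])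

/-- If `G` is a finite graph with clique number at least `3`, then `mob (G ∨ K₁) ≥ 3`; in
particular `mob (G ∨ K₁) ≠ 2`. So the answer to the question is no, already for `k = 3`. -/
theorem result :
    ∀ (V : Type) [Fintype V] [DecidableEq V] (G : SimpleGraph V),
      3 ≤ G.cliqueNum → 3 ≤ mob (joinK1 G) := by
  intro V _ _ G hG
  classical
  obtain ⟨s, hs⟩ := G.exists_isNClique_cliqueNum
  obtain ⟨t, hts, ht⟩ := Finset.exists_subset_card_eq (s := s) (n := 3) (by rw [hs.card_eq]; exact hG)
  obtain ⟨a, b, c, hab, hac, hbc, rfl⟩ := Finset.card_eq_three.mp ht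
  have hcl := hs.isClique
  have Hab : G.Adj a b := hcl (hts (by simp)) (hts (by simp)) hab
  have Hac : G.Adj a c := hcl (hts (by simp)) (hts (by simp)) hac
  have Hbc : G.Adj b c := hcl (hts (by simp)) (hts (by simp)) hbc
  have hm := mobile_of_triangle G Hab Hbc Hac
  apply le_csSup
  · refine ⟨Fintype.card (Option V), ?_⟩
    rintro k ⟨S, rfl, _⟩
    exact Finset.card_le_univ S
  · refine ⟨_, ?_, hm⟩
    rw [Finset.card_insert_of_notMem (by simp), Finset.card_insert_of_notMem (by simpa using hab)]
    simp

end Pool.Agent.Results.MP_73e407_co.TriangleJoin
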